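import Mathlib
import Pool.Agent.Work.MP_a8fbd7_nt.OX.Defs
import Pool.Agent.Work.MP_a8fbd7_nt.OX.TAB.Defs

/-!
# MP_a8fbd7_nt, block EX (existence with a sharper exponent): interface definitions

Goal: outside a set `E` of naturals with `#(E ∩ [1,N]) ≤ N^(3/25)` both Oppermann intervals contain `≥ c n/log n` primes.
`T` is the length of the block of `n`, the points are `x = n²`, `T² ≤ x ≤ 4T²`.  Everything is generic in the two exponents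
`r` (number `T^r` of exceptional points) and `c0` (upper level of roughness `z = T^c0`); the values are `rE`, `cE`.
Author of the statements: helper89.
-/

set_option autoImplicit false

open MeasureTheory Set Filter Topology

noncomputable section

namespace Pool.Agent.Work.MP_a8fbd7_nt.EX

open Pool.Agent.Work.MP_a8fbd7_nt.OX

/-- exponent of the cell theorems -/
def rE : ℝ := 239 / 2000

/-- upper level of roughness: `z = ⌊T^cE⌋` -/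
def cE : ℝ := 119 / 500

/-- **CELL THEOREM XB** (general blocks, total length `T^(2±ε)`, losses of powers of `log T`).  The blocks are distributed into two groups
(`g i = 0`, `g i = 1`) of total length at most `T^(1+κ)` each, and small blocks (`g i = 2`) of length at most `T^(c0+κ)`, of total length at least `T^β`. -/
def StCellXB (r c0 : ℝ) : Prop := ∀ β : ℝ, 0 < β → β ≤ 1 / 20 → ∃ κ : ℝ, 0 < κ ∧ κ ≤ β / 4000 ∧ ∀ η : ℝ, 0 < η → η ≤ 1 / 20 →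
  ∃ ε : ℝ, 0 < ε ∧ ε ≤ 1 / 1000 ∧ ∀ A : ℝ, 0 < A → ∃ A1 C : ℝ, 0 < A1 ∧ 1 ≤ C ∧
  ∀ (T T' : ℝ) (m : ℕ) (a : Fin m → ℕ → ℂ) (N : Fin m → ℝ) (g : Fin m → Fin 3) (S : Finset ℝ) (c : ℝ → ℂ),
  C ≤ T → 1 ≤ T' → T' ≤ T ^ (1 + ε) →
  (∀ i, IsBlk (a i) (N i)) → (∀ i, T ^ η / 2 ≤ N i ∧ N i ≤ T ^ (1 / 2 + κ)) →
  T ^ (2 - ε) ≤ ∏ i, N i → ∏ i, N i ≤ T ^ (2 + ε) →
  (∏ i ∈ Finset.univ.filter (fun i => g i = 0), N i) ≤ T ^ (1 + κ) →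
  (∏ i ∈ Finset.univ.filter (fun i => g i = 1), N i) ≤ T ^ (1 + κ) →
  (∀ i, g i = 2 → N i ≤ T ^ (c0 + κ)) →
  T ^ β ≤ ∏ i ∈ Finset.univ.filter (fun i => g i = 2), N i →
  (∀ i, ∀ t ∈ Icc T' (2 * T'), ‖PB (a i) (N i) t‖ ≤ N i / Real.log T ^ A1) →
  LSep S T → (S.card : ℝ) ≤ T ^ (1 / 3 : ℝ) → (∀ x, ‖c x‖ ≤ 1) →
  S.card * (∏ i, N i) / Real.log T ^ A ≤ ∫ t in T'..(2 * T'), ‖GS S c t‖ * ∏ i, ‖PB (a i) (N i) t‖ →
  (S.card : ℝ) ≤ C * T ^ r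

/-- **CELL THEOREM XA** (general blocks, total length `T^ν`, `ν ≤ 2 - κ2`: the long factors have been reflected).  Two groups of total length at
most `T^(1+3κ3)` each and small blocks of length at most `T^(c0+κ3)`; the loss `T^(-ε)` does not depend on `η`. -/
def StCellXA (r c0 : ℝ) : Prop := ∀ κ2 : ℝ, 0 < κ2 → κ2 ≤ 1 / 20 → ∃ κ3 ε : ℝ, 0 < κ3 ∧ κ3 ≤ κ2 / 10 ∧ 0 < ε ∧ ε ≤ κ3 / 10 ∧
  ∀ η : ℝ, 0 < η → η ≤ 1 / 20 → ∃ C : ℝ, 1 ≤ C ∧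
  ∀ (T T' ν : ℝ) (m : ℕ) (a : Fin m → ℕ → ℂ) (N : Fin m → ℝ) (g : Fin m → Fin 3) (S : Finset ℝ) (c : ℝ → ℂ),
  C ≤ T → 1 ≤ T' → T' ≤ T ^ (1 + ε) →
  (∀ i, IsBlk (a i) (N i)) → (∀ i, T ^ η / 2 ≤ N i ∧ N i ≤ T ^ (1 : ℝ)) →
  ∏ i, N i = T ^ ν → ν ≤ 2 - κ2 →
  (∏ i ∈ Finset.univ.filter (fun i => g i = 0), N i) ≤ T ^ (1 + 3 * κ3) →
  (∏ i ∈ Finset.univ.filter (fun i => g i = 1), N i) ≤ T ^ (1 + 3 * κ3) →
  (∀ i, g i = 2 → N i ≤ T ^ (c0 + κ3)) →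
  LSep S T → (S.card : ℝ) ≤ T ^ (1 / 3 : ℝ) → (∀ x, ‖c x‖ ≤ 1) →
  S.card * T ^ (1 + ν / 2 - ε) ≤ ∫ t in T'..(2 * T'), ‖GS S c t‖ * ∏ i, ‖PB (a i) (N i) t‖ →
  (S.card : ℝ) ≤ C * T ^ r

end Pool.Agent.Work.MP_a8fbd7_nt.EX
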